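import Pool.Agent.Q177.FE.Enum

/-!
# Atoms in the wavelength capacity distribution: the figure eight

Let the graph consist of one vertex `v` and two loops with rationally independent lengths `l₁`, `l₂`
(so `v` is an interior vertex of degree four). The generic eigenfunctions are symmetric about the
midpoints of both loops, and their frequencies satisfy `tan (k l₁ / 2) + tan (k l₂ / 2) = 0`, that
is `k (l₁ + l₂) ∈ 2 π ℤ`. The first Neumann points on the two ends of the loop of length `l` have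
the distance `(π / k) frac (k l / 2 π)` from `v`, and the two fractional parts add up to one. So the
wavelength capacity at `v` is equal to `2` for EVERY generic eigenfunction: the distribution is an
atom of mass one at `2`.
-/

open Set MeasureTheory
open Pool.Agent.Q177.FE

set_option autoImplicit false

namespace Pool.Agent.Results.MP_ecbb05_mp.FigureEight

/-- (1) The negation of Q1: there are a standard graph with rationally independent edge lengths, an
interior vertex `v`, and the enumeration `k` of its spectrum, such that the set of generic indices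
is infinite, the wavelength capacity has a law, and in every law `(p, g)` (`p` finitely supported,
`g` integrable) the atom `p x` at some `x` is positive.

(2) Precisely: for all `l₁, l₂ > 0` with irrational quotient the figure eight with loops of lengths
`l₁`, `l₂` is a standard graph with rationally independent edge lengths and one vertex, of degree
four; its spectrum has an enumeration, and for every enumeration the set of generic indices is
infinite, the wavelength capacity of every generic eigenfunction at the vertex is `2`, the set of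
generic indices with capacity in `B` has density one if `2 ∈ B` and zero otherwise, the
distribution is the unit mass at `2`, and `p 2 = 1` in every law. -/
theorem result :
    (∃ Γ : MGraph, Γ.Standard ∧ LinearIndependent ℚ Γ.len ∧ ∃ v : Γ.V, 3 ≤ Γ.deg v ∧
      ∃ k, IsSpectrum Γ k ∧ (GenericSet Γ k).Infinite ∧ (∃ p g, Integrable g ∧ HasLaw Γ k v p g) ∧
        ∃ x, ∀ p g, Integrable g → HasLaw Γ k v p g → 0 < p x) ∧
    ∀ (l₁ l₂ : ℝ) (h₁ : 0 < l₁) (h₂ : 0 < l₂), Irrational (l₁ / l₂) →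
      (figEight l₁ l₂ h₁ h₂).Standard ∧ LinearIndependent ℚ (figEight l₁ l₂ h₁ h₂).len ∧
      (∃ k, IsSpectrum (figEight l₁ l₂ h₁ h₂) k) ∧
      ∀ v, (figEight l₁ l₂ h₁ h₂).deg v = 4 ∧ ∀ k, IsSpectrum (figEight l₁ l₂ h₁ h₂) k →
        (GenericSet (figEight l₁ l₂ h₁ h₂) k).Infinite ∧
        (∀ n ∈ GenericSet (figEight l₁ l₂ h₁ h₂) k, ∀ f ∈ Eig (figEight l₁ l₂ h₁ h₂) (k n),
          f ≠ 0 → rho (figEight l₁ l₂ h₁ h₂) (k n) f v = 2) ∧
        (∀ B : Set ℝ, (2 ∈ B → HasDensity (GenericSet (figEight l₁ l₂ h₁ h₂) k)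
            (Pre (figEight l₁ l₂ h₁ h₂) k v B) 1) ∧
          (2 ∉ B → HasDensity (GenericSet (figEight l₁ l₂ h₁ h₂) k)
            (Pre (figEight l₁ l₂ h₁ h₂) k v B) 0)) ∧
        HasLaw (figEight l₁ l₂ h₁ h₂) k v (Finsupp.single 2 1) 0 ∧
        ∀ p g, Integrable g → HasLaw (figEight l₁ l₂ h₁ h₂) k v p g → p 2 = 1 := by
  have main : ∀ (l₁ l₂ : ℝ) (h₁ : 0 < l₁) (h₂ : 0 < l₂), Irrational (l₁ / l₂) →
      (figEight l₁ l₂ h₁ h₂).Standard ∧ LinearIndependent ℚ (figEight l₁ l₂ h₁ h₂).len ∧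
      (∃ k, IsSpectrum (figEight l₁ l₂ h₁ h₂) k) ∧
      ∀ v, (figEight l₁ l₂ h₁ h₂).deg v = 4 ∧ ∀ k, IsSpectrum (figEight l₁ l₂ h₁ h₂) k →
        (GenericSet (figEight l₁ l₂ h₁ h₂) k).Infinite ∧
        (∀ n ∈ GenericSet (figEight l₁ l₂ h₁ h₂) k, ∀ f ∈ Eig (figEight l₁ l₂ h₁ h₂) (k n),
          f ≠ 0 → rho (figEight l₁ l₂ h₁ h₂) (k n) f v = 2) ∧
        (∀ B : Set ℝ, (2 ∈ B → HasDensity (GenericSet (figEight l₁ l₂ h₁ h₂) k)
            (Pre (figEight l₁ l₂ h₁ h₂) k v B) 1) ∧
          (2 ∉ B → HasDensity (GenericSet (figEight l₁ l₂ h₁ h₂) k)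
            (Pre (figEight l₁ l₂ h₁ h₂) k v B) 0)) ∧
        HasLaw (figEight l₁ l₂ h₁ h₂) k v (Finsupp.single 2 1) 0 ∧
        ∀ p g, Integrable g → HasLaw (figEight l₁ l₂ h₁ h₂) k v p g → p 2 = 1 := by
    intro l₁ l₂ h₁ h₂ hi
    refine ⟨standard_fig h₁ h₂, indep_fig h₁ h₂ hi, exists_spectrum h₁ h₂ hi, fun v =>
      ⟨deg_fig h₁ h₂ v, fun k hk => ⟨generic_infinite h₁ h₂ hi hk, rho_generic h₁ h₂ hi hk v,
        fun B => ⟨fun hB => ?_, fun hB => ?_⟩, law_fig h₁ h₂ hi hk v,
        fun p g hg hl => law_unique h₁ h₂ hi hk v p g hg hl⟩⟩⟩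
    · have := density_pre h₁ h₂ hi hk v B
      rwa [if_pos hB] at this
    · have := density_pre h₁ h₂ hi hk v B
      rwa [if_neg hB] at this
  refine ⟨?_, main⟩
  have hs : (0 : ℝ) < Real.sqrt 2 := Real.sqrt_pos.2 two_pos
  have hirr : Irrational (Real.sqrt 2 / 1) := by
    rw [div_one]
    exact irrational_sqrt_two
  obtain ⟨hst, hli, ⟨k, hk⟩, hv⟩ := main (Real.sqrt 2) 1 hs one_pos hirr
  obtain ⟨hd, hv'⟩ := hv ()
  obtain ⟨hinf, -, -, hlaw, huniq⟩ := hv' k hk
  refine ⟨_, hst, hli, (), ?_, k, hk, hinf, ⟨_, 0, integrable_zero _ _ _, hlaw⟩, 2, ?_⟩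
  · rw [hd]
    norm_num
  · intro p g hg hl
    rw [huniq p g hg hl]
    exact one_pos

end Pool.Agent.Results.MP_ecbb05_mp.FigureEight
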